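import Pool.Agent.Q144.JEg

/-!
# The inflation factor of the John ellipsoid of the metric polytope (MP_68beba_co)

For every `n ≥ 3` the exact value of the inflation factor `r_n` is determined, together with its
asymptotics `r_n / n → 3^(3/4) √(5+√3) / 6`.
-/

namespace Pool.Agent.Results.MP_68beba_co.JohnInflation

open MeasureTheory Filter Topology

/-- The unordered pairs `{i,j}` of distinct elements of `[n]`, written as `(i,j)` with `i < j`. -/
abbrev Pair (n : ℕ) := {p : Fin n × Fin n // p.1 < p.2}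

/-- `ℝ^(pairs)` with its Euclidean norm and Lebesgue measure. -/
abbrev Space (n : ℕ) := EuclideanSpace ℝ (Pair n)

/-- The number `d_ij = d_ji` that the point `d` assigns to the pair `{i,j}` (`0` for `i = j`). -/
noncomputable def coord {n : ℕ} (d : Space n) (i j : Fin n) : ℝ :=
  if h : i < j then d ⟨(i, j), h⟩ else if h : j < i then d ⟨(j, i), h⟩ else 0

/-- The metric polytope: `0 ≤ d_ij ≤ 1` and all triangle inequalities. -/
def metricPolytope (n : ℕ) : Set (Space n) :=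
  {d | (∀ p, 0 ≤ d p ∧ d p ≤ 1) ∧
    ∀ i j k : Fin n, i ≠ j → j ≠ k → i ≠ k → 0 ≤ coord d i j + coord d j k - coord d i k}

/-- `E` is an ellipsoid with centre `c`: the image of the closed unit ball under an invertible
affine map `x ↦ c + A x`. -/
def IsEllipsoid {n : ℕ} (E : Set (Space n)) (c : Space n) : Prop :=
  ∃ A : Space n →ₗ[ℝ] Space n, LinearMap.det A ≠ 0 ∧
    E = (fun x => c + A x) '' Metric.closedBall 0 1

/-- `E` (with centre `c`) is an ellipsoid of largest volume contained in the metric polytope. -/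
def IsLargest {n : ℕ} (E : Set (Space n)) (c : Space n) : Prop :=
  IsEllipsoid E c ∧ E ⊆ metricPolytope n ∧
    ∀ (E' : Set (Space n)) (c' : Space n), IsEllipsoid E' c' → E' ⊆ metricPolytope n →
      volume E' ≤ volume E

/-- The cubic polynomial that determines the centre `(1 - G, …, 1 - G)` of the ellipsoid. -/
noncomputable def cubic (n : ℕ) (x : ℝ) : ℝ :=
  (2 * (n : ℝ) ^ 2 - 2 * n + 4) * x ^ 3 + (4 * (n : ℝ) ^ 2 - 8 * n - 4) * x ^ 2
    + ((n : ℝ) - 2) * (n - 6) * x - ((n : ℝ) - 2) ^ 2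

/-- For every `n ≥ 3` there is exactly one ellipsoid `E n` of largest volume in the metric
polytope; its centre `c n` has all coordinates equal to `1 - G n`, where `G n` is the only
positive root of `cubic n`; the least `t > 0` for which the dilate of `E n` by `t` about its
centre contains the polytope is
`r n = √( C(n,2) (1 - G)/G + ⌊n²/4⌋ (3G - 1)/(G (1 - G)) )`, `G = G n`;
and `r n / n → 3^(3/4) √(5 + √3) / 6`. -/
theorem result :
    ∃ (E : ∀ n : ℕ, Set (Space n)) (c : ∀ n : ℕ, Space n) (G r : ℕ → ℝ),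
      (∀ n : ℕ, 3 ≤ n →
        (IsLargest (E n) (c n) ∧
          ∀ (E' : Set (Space n)) (c' : Space n), IsLargest E' c' → E' = E n ∧ c' = c n) ∧
        (∀ p : Pair n, c n p = 1 - G n) ∧
        (1 / 3 < G n ∧ G n < 1 / 2 ∧ cubic n (G n) = 0 ∧
          ∀ x : ℝ, 0 < x → cubic n x = 0 → x = G n) ∧
        IsLeast {t : ℝ | 0 < t ∧ metricPolytope n ⊆ AffineMap.homothety (c n) t '' E n} (r n) ∧
        r n = Real.sqrt ((n : ℝ) * (n - 1) / 2 * ((1 - G n) / G n) +
          ((n ^ 2 / 4 : ℕ) : ℝ) * ((3 * G n - 1) / (G n * (1 - G n))))) ∧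
      Tendsto (fun n : ℕ => r n / n) atTop
        (𝓝 ((3 : ℝ) ^ (3 / 4 : ℝ) * Real.sqrt (5 + Real.sqrt 3) / 6)) := by
  have key : ∀ n : ℕ, ∃ (E : Set (Space n)) (c : Space n) (G : ℝ), 3 ≤ n →
        (IsLargest E c ∧
          ∀ (E' : Set (Space n)) (c' : Space n), IsLargest E' c' → E' = E ∧ c' = c) ∧
        (∀ p : Pair n, c p = 1 - G) ∧
        (1 / 3 < G ∧ G < 1 / 2 ∧ cubic n G = 0 ∧
          ∀ x : ℝ, 0 < x → cubic n x = 0 → x = G) ∧
        IsLeast {t : ℝ | 0 < t ∧ metricPolytope n ⊆ AffineMap.homothety c t '' E}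
          (Real.sqrt (Q144.JE.rsq n G)) := by
    intro n
    by_cases hn : 3 ≤ n
    swap
    · exact ⟨∅, 0, 0, fun h => absurd h hn⟩
    obtain ⟨G, hG, hG1, hc⟩ := Q144.JE.exists_root n hn
    obtain ⟨Y, hY, hY1, hY2⟩ := Q144.JE.exists_Y hG hG1 hn hc
    have hsub := Q144.JE.ell_sub hG hG1 hY1 hY2
    have hYdet : LinearMap.det (Y : Space n →ₗ[ℝ] Space n) ≠ 0 :=
      (LinearEquiv.isUnit_det' Y).ne_zero
    refine ⟨Q144.JE.ell (Y : Space n →ₗ[ℝ] Space n) (Q144.JE.cen n (1 - G)),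
      Q144.JE.cen n (1 - G), G, fun _ => ⟨⟨⟨⟨_, hYdet, rfl⟩, hsub, ?_⟩, ?_⟩, fun _ => rfl,
        ⟨hG, hG1, hc, fun x hx h => Q144.JE.root_unique n hn hx (by linarith) h hc⟩, ?_, ?_⟩⟩
    · rintro E' c' ⟨A', hA', rfl⟩ hE'
      show MeasureTheory.volume (Q144.JE.ell A' c') ≤ _
      rw [Q144.JE.vol_le_iff]
      rcases le_total |LinearMap.det (Y : Space n →ₗ[ℝ] Space n)| |LinearMap.det A'| with h | h
      · have := Q144.JE.john_MP hG hG1 hn hY hY1 hY2 (A' := A') (c' := c')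
          (fun x hx => hE' ⟨x, by rw [mem_closedBall_zero_iff]; exact hx, rfl⟩) h
        exact this.1.le
      · exact h
    · rintro E' c' ⟨⟨A', hA', rfl⟩, hE', hmax⟩
      have h := hmax _ _ ⟨_, hYdet, rfl⟩ hsub
      have h' : |LinearMap.det (Y : Space n →ₗ[ℝ] Space n)| ≤ |LinearMap.det A'| :=
        (Q144.JE.vol_le_iff _ _ (Q144.JE.cen n (1 - G)) c').mp h
      obtain ⟨-, j2, j3⟩ := Q144.JE.john_MP hG hG1 hn hY hY1 hY2 (A' := A') (c' := c')
          (fun x hx => hE' ⟨x, by rw [mem_closedBall_zero_iff]; exact hx, rfl⟩) h'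
      refine ⟨?_, j2⟩
      rw [← j2]
      exact Q144.JE.ell_eq (c := c') j3
    · refine ⟨Real.sqrt_pos.mpr (Q144.JE.rsq_pos hG hG1 hn), fun d hd => ?_⟩
      rw [Q144.JE.mem_dilate (Real.sqrt_pos.mpr (Q144.JE.rsq_pos hG hG1 hn))]
      apply Real.le_sqrt_of_sq_le
      rw [Q144.JE.norm_symm hY]
      exact Q144.JE.quad_le hG hG1 hn hd
    · rintro t ⟨ht, hsubt⟩
      obtain ⟨d, hd, hq⟩ := Q144.JE.quad_attained hG hG1 hn
      have hmem := (Q144.JE.mem_dilate ht).mp (hsubt hd)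
      rw [← hq, ← Q144.JE.norm_symm hY]
      rw [Real.sqrt_sq (norm_nonneg _)]
      exact hmem
  choose E c G h using key
  refine ⟨E, c, G, fun n => Real.sqrt (Q144.JE.rsq n (G n)), fun n hn => ?_, ?_⟩
  · obtain ⟨h1, h2, h3, h4⟩ := h n hn
    exact ⟨h1, h2, h3, h4, rfl⟩
  · exact Q144.JE.tendsto_ratio G _
      (fun n hn => ⟨(h n hn).2.2.1.1, (h n hn).2.2.1.2.1, (h n hn).2.2.1.2.2.1⟩) (fun n _ => rfl)

end Pool.Agent.Results.MP_68beba_co.JohnInflation
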